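import Pool.Agent.N793.GP.Bh

/-! # One set in general position controls one arbitrary set, for every bounded kernel

The proofs follow `Pool.Agent.N793.GP.Exp`, with a general kernel in place of `χ (a + b)`.
-/

set_option autoImplicit false

namespace Pool.Agent.V7H48.OD

open Finset
open Pool.Agent.N793.PG
open Pool.Agent.N793.GP

variable {K : ∀ p : ℕ, MulChar (ZMod p) ℂ → ZMod p → ZMod p → ℂ}
  {F : ∀ p : ℕ, MulChar (ZMod p) ℂ → Prop}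

/-- the bound `p ^ (-δ) |A|²` for the sums of a kernel over `A × A` -/
def KSaves (K : ∀ p : ℕ, MulChar (ZMod p) ℂ → ZMod p → ZMod p → ℂ)
    (F : ∀ p : ℕ, MulChar (ZMod p) ℂ → Prop) (α δ : ℝ) : Prop :=
  ∃ p₀ : ℕ, ∀ p : ℕ, p.Prime → p₀ < p → ∀ A : Finset (ZMod p), (p : ℝ) ^ α < (A.card : ℝ) →
    ∀ χ : MulChar (ZMod p) ℂ, χ ≠ 1 → F p χ →
      ‖∑ a ∈ A, ∑ b ∈ A, K p χ a b‖ ≤ (p : ℝ) ^ (-δ) * (A.card : ℝ) ^ 2

/-- the same for the sets in general position -/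
def KSavesGP {n : ℕ} (K : ∀ p : ℕ, MulChar (ZMod p) ℂ → ZMod p → ZMod p → ℂ)
    (F : ∀ p : ℕ, MulChar (ZMod p) ℂ → Prop)
    (Ps : ∀ p : ℕ, Finset (MvPolynomial (Fin n) (ZMod p))) (α δ : ℝ) : Prop :=
  ∃ p₀ : ℕ, ∀ p : ℕ, p.Prime → p₀ < p → ∀ A : Finset (ZMod p), (p : ℝ) ^ α < (A.card : ℝ) →
    GenPos (Ps p) A → ∀ χ : MulChar (ZMod p) ℂ, χ ≠ 1 → F p χ →
      ‖∑ a ∈ A, ∑ b ∈ A, K p χ a b‖ ≤ (p : ℝ) ^ (-δ) * (A.card : ℝ) ^ 2

/-- the same for the sets without coincidences between sums or products of `h` elements -/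
def KSavesB (h : ℕ) (K : ∀ p : ℕ, MulChar (ZMod p) ℂ → ZMod p → ZMod p → ℂ)
    (F : ∀ p : ℕ, MulChar (ZMod p) ℂ → Prop) (α δ : ℝ) : Prop :=
  ∃ p₀ : ℕ, ∀ p : ℕ, p.Prime → p₀ < p → ∀ A : Finset (ZMod p), (p : ℝ) ^ α < (A.card : ℝ) →
    AddB h A → MulB h A → ∀ χ : MulChar (ZMod p) ℂ, χ ≠ 1 → F p χ →
      ‖∑ a ∈ A, ∑ b ∈ A, K p χ a b‖ ≤ (p : ℝ) ^ (-δ) * (A.card : ℝ) ^ 2

/-- the finite step: the density of a one-set sum -/
theorem density {n p : ℕ} (hp : p.Prime) (k : ZMod p → ZMod p → ℂ) (hk : ∀ x y, ‖k x y‖ ≤ 1)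
    (Ps : Finset (MvPolynomial (Fin (n + 1)) (ZMod p))) (D : ℕ)
    (hPs : ∀ P ∈ Ps, P ≠ 0 ∧ P.totalDegree ≤ D) (m : ℕ) (hm : 2 ≤ m) (τ : ℝ) (hτ : 0 ≤ τ)
    (H : ∀ A' : Finset (ZMod p), 3 * m ≤ 4 * A'.card → GenPos Ps A' →
      ‖∑ a ∈ A', ∑ b ∈ A', k a b‖ ≤ τ * (A'.card : ℝ) ^ 2)
    (A : Finset (ZMod p)) (hA : A.Nonempty) :
    ‖∑ a ∈ A, ∑ b ∈ A, k a b‖ ≤
      (2 * τ + 2 / m + 8 * ((Ps.card : ℝ) * D * (m : ℝ) ^ n + m) / A.card) * (A.card : ℝ) ^ 2 := by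
  classical
  have : Fact p.Prime := ⟨hp⟩
  have hc : (0 : ℝ) < A.card := by exact_mod_cast card_pos.2 hA
  have hm2 : (2 : ℝ) ≤ m := by exact_mod_cast hm
  have hm0 : (0 : ℝ) < m := by linarith
  rw [← div_le_iff₀ (by positivity)]
  set κ := ‖∑ a ∈ A, ∑ b ∈ A, k a b‖ / (A.card : ℝ) ^ 2 with hκ
  have hκ0 : 0 ≤ κ := by positivity
  set Q : ℝ := (Ps.card : ℝ) * D * (m : ℝ) ^ n + m with hQ
  have hQ0 : 0 ≤ Q := by positivity
  have hE : 4 * (m : ℝ) * ((Ps.card : ℝ) * D * (m : ℝ) ^ (n + 1) + (m : ℝ) ^ 2) / A.card =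
      m ^ 2 / 2 * (8 * Q / A.card) := by
    rw [hQ]; field_simp; ring
  have hG : (m : ℝ) ^ 2 / 2 * κ ≤ (m : ℝ) * (m - 1) * κ := by
    refine mul_le_mul_of_nonneg_right ?_ hκ0
    nlinarith
  have hpos : (0 : ℝ) < (m : ℝ) ^ 2 / 2 := by positivity
  have hE0 : 0 ≤ 8 * Q / A.card := by positivity
  have hmm : 0 ≤ 2 / (m : ℝ) := by positivity
  by_cases hbig : 4 * (m : ℝ) * ((Ps.card : ℝ) * D * (m : ℝ) ^ (n + 1) + (m : ℝ) ^ 2) / A.card <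
      (m : ℝ) * (m - 1) * κ
  · obtain ⟨A', -, h2, h3, h4, h5⟩ := sample k hk A
      n m D Ps hPs hA hbig
    have h6 := H A' h2 h4
    have h7 : τ * (A'.card : ℝ) ^ 2 ≤ τ * (m : ℝ) ^ 2 := by
      refine mul_le_mul_of_nonneg_left ?_ hτ
      have : (A'.card : ℝ) ≤ m := by exact_mod_cast h3
      exact pow_le_pow_left₀ (Nat.cast_nonneg _) this 2
    have h8 : (m : ℝ) ^ 2 / 2 * κ ≤ (m : ℝ) ^ 2 / 2 * (2 * τ + 2 / m + 8 * Q / A.card) := by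
      have h9 : (m : ℝ) ^ 2 / 2 * (2 * τ + 2 / m + 8 * Q / A.card) =
          τ * (m : ℝ) ^ 2 + m + m ^ 2 / 2 * (8 * Q / A.card) := by
        field_simp
      rw [h9, ← hE]
      linarith
    exact le_of_mul_le_mul_left h8 hpos
  · push Not at hbig
    rw [hE] at hbig
    have h8 : (m : ℝ) ^ 2 / 2 * κ ≤ (m : ℝ) ^ 2 / 2 * (8 * Q / A.card) := by linarith
    have h9 := le_of_mul_le_mul_left h8 hpos
    linarith

/-- **One set in general position controls one arbitrary set.** -/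
theorem KSavesGP.all {n : ℕ} {Ps : ∀ p : ℕ, Finset (MvPolynomial (Fin (n + 1)) (ZMod p))}
    {κ ε₁ δ₁ ε₂ δ₂ : ℝ} (hK : ∀ p : ℕ, p.Prime → ∀ χ x y, ‖K p χ x y‖ ≤ 1) (H : KSavesGP K F Ps ε₁ δ₁) (hPs : Few Ps κ) (h0 : 0 < ε₁)
    (hε : n * ε₁ + κ < ε₂) (hε' : ε₁ < ε₂) (hδ1 : δ₂ < δ₁) (hδ2 : δ₂ < ε₁)
    (hδ3 : δ₂ < ε₂ - (n * ε₁ + κ)) (hδ4 : δ₂ < ε₂ - ε₁) : KSaves K F ε₂ δ₂ := by
  obtain ⟨p₀, H⟩ := H
  obtain ⟨p₁, hPs⟩ := hPs
  obtain ⟨p₂, hp₂⟩ := large 8 (δ₁ - δ₂) (by linarith)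
  obtain ⟨p₃, hp₃⟩ := large 8 (ε₁ - δ₂) (by linarith)
  obtain ⟨p₄, hp₄⟩ := large (32 * 4 ^ n) (ε₂ - (n * ε₁ + κ) - δ₂) (by linarith)
  obtain ⟨p₅, hp₅⟩ := large 128 (ε₂ - ε₁ - δ₂) (by linarith)
  refine ⟨p₀ + p₁ + p₂ + p₃ + p₄ + p₅, fun p hp hlt A hA χ hχ hF => ?_⟩
  obtain ⟨D, hD1, hD2⟩ := hPs p hp (by omega)
  have e2 := hp₂ p (by omega)
  have e3 := hp₃ p (by omega)
  have e4 := hp₄ p (by omega)
  have e5 := hp₅ p (by omega)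
  have hp1 : (1 : ℝ) ≤ p := by exact_mod_cast hp.one_le
  have hp0 : (0 : ℝ) < p := by linarith
  set x : ℝ := (p : ℝ) ^ ε₁ with hx
  have hx1 : 1 ≤ x := Real.one_le_rpow hp1 h0.le
  set m : ℕ := ⌈2 * x⌉₊ with hm
  have hm1 : 2 * x ≤ (m : ℝ) := Nat.le_ceil _
  have hm2 : (m : ℝ) ≤ 4 * x := by
    have := ceil_le_two_mul (show 1 ≤ 2 * x by linarith)
    linarith
  have hmge : 2 ≤ m := by
    have : (2 : ℝ) ≤ m := by linarith
    exact_mod_cast this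
  have hAne : A.Nonempty := by
    rw [← card_pos]
    have : (0 : ℝ) < A.card := (Real.rpow_pos_of_pos hp0 _).trans hA
    exact_mod_cast this
  have hc : (0 : ℝ) < A.card := by exact_mod_cast card_pos.2 hAne
  have h1 := density hp (K p χ) (hK p hp χ) (Ps p) D hD1 m hmge ((p : ℝ) ^ (-δ₁)) (Real.rpow_pos_of_pos hp0 _).le
    (fun A' hA' hgp => H p hp (by omega) A' (by
      have h2 : 3 * (m : ℝ) ≤ 4 * (A'.card : ℝ) := by exact_mod_cast hA'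
      have h3 : 6 * x ≤ 4 * (A'.card : ℝ) := by linarith
      rw [← hx]
      linarith) hgp χ hχ hF) A hAne
  refine h1.trans (mul_le_mul_of_nonneg_right ?_ (by positivity))
  -- four terms
  set y : ℝ := (p : ℝ) ^ (-δ₂) with hy
  have t1 : 8 * (p : ℝ) ^ (-δ₁) ≤ y := by
    calc 8 * (p : ℝ) ^ (-δ₁) ≤ (p : ℝ) ^ (δ₁ - δ₂) * (p : ℝ) ^ (-δ₁) :=
          mul_le_mul_of_nonneg_right e2 (Real.rpow_pos_of_pos hp0 _).le
      _ = y := by rw [hy, ← Real.rpow_add hp0]; congr 1; ring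
  have t2 : 8 * (1 / (m : ℝ)) ≤ y := by
    have h2 : 1 / (m : ℝ) ≤ 1 / x := by
      apply one_div_le_one_div_of_le (by linarith)
      linarith
    have h3 : 1 / x = (p : ℝ) ^ (-ε₁) := by rw [hx, Real.rpow_neg hp0.le, one_div]
    calc 8 * (1 / (m : ℝ)) ≤ (p : ℝ) ^ (ε₁ - δ₂) * (p : ℝ) ^ (-ε₁) := by
          refine mul_le_mul e3 (by rw [← h3]; exact h2) (by positivity) (by positivity)
      _ = y := by rw [hy, ← Real.rpow_add hp0]; congr 1; ring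
  have hAinv : 1 / (A.card : ℝ) ≤ (p : ℝ) ^ (-ε₂) := by
    rw [Real.rpow_neg hp0.le, ← one_div]
    exact one_div_le_one_div_of_le (Real.rpow_pos_of_pos hp0 _) hA.le
  have t3 : 32 * ((((Ps p).card : ℝ) * D * (m : ℝ) ^ n) * (1 / A.card)) ≤ y := by
    have h2 : (m : ℝ) ^ n ≤ 4 ^ n * (p : ℝ) ^ (n * ε₁) := by
      calc (m : ℝ) ^ n ≤ (4 * x) ^ n := pow_le_pow_left₀ (Nat.cast_nonneg _) hm2 n
        _ = 4 ^ n * (p : ℝ) ^ (n * ε₁) := by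
            rw [mul_pow, hx, ← Real.rpow_natCast, ← Real.rpow_natCast ((p : ℝ) ^ ε₁),
              ← Real.rpow_mul hp0.le]
            congr 2
            ring
    calc 32 * ((((Ps p).card : ℝ) * D * (m : ℝ) ^ n) * (1 / A.card))
        ≤ 32 * (((p : ℝ) ^ κ * (4 ^ n * (p : ℝ) ^ (n * ε₁))) * (p : ℝ) ^ (-ε₂)) := by
          refine mul_le_mul_of_nonneg_left ?_ (by norm_num)
          refine mul_le_mul ?_ hAinv (by positivity) (by positivity)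
          exact mul_le_mul hD2 h2 (by positivity) (by positivity)
      _ = (32 * 4 ^ n) * (p : ℝ) ^ (n * ε₁ + κ - ε₂) := by
          rw [show n * ε₁ + κ - ε₂ = κ + n * ε₁ + (-ε₂) by ring, Real.rpow_add hp0,
            Real.rpow_add hp0]
          ring
      _ ≤ (p : ℝ) ^ (ε₂ - (n * ε₁ + κ) - δ₂) * (p : ℝ) ^ (n * ε₁ + κ - ε₂) :=
          mul_le_mul_of_nonneg_right e4 (Real.rpow_pos_of_pos hp0 _).le
      _ = y := by rw [hy, ← Real.rpow_add hp0]; congr 1; ring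
  have t4 : 32 * ((m : ℝ) * (1 / A.card)) ≤ y := by
    calc 32 * ((m : ℝ) * (1 / A.card)) ≤ 32 * ((4 * x) * (p : ℝ) ^ (-ε₂)) := by
          refine mul_le_mul_of_nonneg_left ?_ (by norm_num)
          exact mul_le_mul hm2 hAinv (by positivity) (by positivity)
      _ = 128 * (p : ℝ) ^ (ε₁ - ε₂) := by
          rw [hx, sub_eq_add_neg, Real.rpow_add hp0]
          ring
      _ ≤ (p : ℝ) ^ (ε₂ - ε₁ - δ₂) * (p : ℝ) ^ (ε₁ - ε₂) :=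
          mul_le_mul_of_nonneg_right e5 (Real.rpow_pos_of_pos hp0 _).le
      _ = y := by rw [hy, ← Real.rpow_add hp0]; congr 1; ring
  have t5 : 2 / (m : ℝ) = 2 * (1 / (m : ℝ)) := by ring
  have t6 : 8 * (((Ps p).card : ℝ) * D * (m : ℝ) ^ n + m) / (A.card : ℝ) =
      8 * ((((Ps p).card : ℝ) * D * (m : ℝ) ^ n) * (1 / A.card)) +
        8 * ((m : ℝ) * (1 / A.card)) := by ring
  rw [t5, t6]
  linarith


theorem KSavesB.gp {N h : ℕ} {α δ : ℝ} (hN : 2 * h ≤ N) (hα : 0 < α) (H : KSavesB h K F α δ) :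
    KSavesGP K F (rel N h) α δ := by
  obtain ⟨p₀, H⟩ := H
  obtain ⟨p₁, hp₁⟩ := large (N : ℝ) α hα
  refine ⟨p₀ + p₁, fun p hp hlt A hA hgp χ hχ hF => ?_⟩
  have hNA : N ≤ A.card := by
    have h1 := (hp₁ p (by omega)).trans hA.le
    exact_mod_cast h1
  exact H p hp (by omega) A hA (hgp.addB hN hNA) (hgp.mulB hN hNA) χ hχ hF

/-- **Sets without coincidences decide all sets.** -/
theorem exists_KSavesB (hK : ∀ p : ℕ, p.Prime → ∀ χ x y, ‖K p χ x y‖ ≤ 1) (h : ℕ) (hh : 1 ≤ h) :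
    (∀ ε : ℝ, 0 < ε → ∃ δ : ℝ, 0 < δ ∧ KSaves K F ε δ) ↔
      ∀ ε : ℝ, 0 < ε → ∃ δ : ℝ, 0 < δ ∧ KSavesB h K F ε δ := by
  constructor
  · intro H ε hε
    obtain ⟨δ, hδ, p₀, H⟩ := H ε hε
    exact ⟨δ, hδ, p₀, fun p hp hlt A hA _ _ χ hχ hF => H p hp hlt A hA χ hχ hF⟩
  · intro H ε hε
    obtain ⟨k, rfl⟩ : ∃ k, h = k + 1 := ⟨h - 1, by omega⟩
    have hk : (0 : ℝ) ≤ k := Nat.cast_nonneg _
    have hx : 0 < ε / (2 * k + 3) := by positivity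
    obtain ⟨δ₁, hδ₁, H⟩ := H (ε / (2 * k + 3)) hx
    have H1 := H.gp (N := 2 * k + 1 + 1) (by omega) hx
    have e1 : ε / (2 * k + 3) * (2 * k + 3) = ε := by field_simp
    have e2 : ((2 * k + 1 : ℕ) : ℝ) * (ε / (2 * k + 3)) + ε / (2 * k + 3) < ε := by
      push_cast
      nlinarith
    have e3 : ε / (2 * k + 3) < ε := by nlinarith
    set δ : ℝ := min (min δ₁ (ε / (2 * k + 3)))
      (min (ε - (((2 * k + 1 : ℕ) : ℝ) * (ε / (2 * k + 3)) + ε / (2 * k + 3)))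
        (ε - ε / (2 * k + 3))) / 2 with hδ
    have h4 : 0 < min (min δ₁ (ε / (2 * k + 3)))
      (min (ε - (((2 * k + 1 : ℕ) : ℝ) * (ε / (2 * k + 3)) + ε / (2 * k + 3)))
        (ε - ε / (2 * k + 3))) :=
      lt_min (lt_min hδ₁ hx) (lt_min (by linarith) (by linarith))
    have h5 := (min_le_left (min δ₁ (ε / (2 * k + 3)))
      (min (ε - (((2 * k + 1 : ℕ) : ℝ) * (ε / (2 * k + 3)) + ε / (2 * k + 3)))
        (ε - ε / (2 * k + 3))))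
    have h6 := (min_le_right (min δ₁ (ε / (2 * k + 3)))
      (min (ε - (((2 * k + 1 : ℕ) : ℝ) * (ε / (2 * k + 3)) + ε / (2 * k + 3)))
        (ε - ε / (2 * k + 3))))
    have h7 := min_le_left δ₁ (ε / (2 * k + 3))
    have h8 := min_le_right δ₁ (ε / (2 * k + 3))
    have h9 := min_le_left (ε - (((2 * k + 1 : ℕ) : ℝ) * (ε / (2 * k + 3)) + ε / (2 * k + 3)))
        (ε - ε / (2 * k + 3))
    have h10 := min_le_right (ε - (((2 * k + 1 : ℕ) : ℝ) * (ε / (2 * k + 3)) + ε / (2 * k + 3)))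
        (ε - ε / (2 * k + 3))
    exact ⟨δ, by linarith, H1.all hK (rel_few _ _ hx) hx e2 e3 (by linarith) (by linarith)
      (by linarith) (by linarith)⟩

end Pool.Agent.V7H48.OD
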