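import Pool.Agent.V7H48.OD.Rec
import Pool.Agent.V7H48.OD.Gen

/-! # Ordered difference sums over one set and sums over two sets: exponents -/

set_option autoImplicit false

namespace Pool.Agent.V7H48.OD

open Finset
open Pool.Agent.N793.PG

/-- the sum of `χ (b - a)` over the pairs `a, b` of elements of `A` such that `a` comes before `b` -/
noncomputable def osum {p : ℕ} (e : ZMod p → ℕ) (χ : MulChar (ZMod p) ℂ) (A : Finset (ZMod p)) : ℂ :=
  ∑ a ∈ A, ∑ b ∈ A.filter (fun b => e a < e b), χ (b - a)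

/-- the kernel of the ordered sum -/
noncomputable def oker (e : ∀ p : ℕ, ZMod p → ℕ) (p : ℕ) (χ : MulChar (ZMod p) ℂ)
    (x y : ZMod p) : ℂ := if e p x < e p y then χ (y - x) else 0

theorem oker_sum (e : ∀ p : ℕ, ZMod p → ℕ) (p : ℕ) (χ : MulChar (ZMod p) ℂ) (A : Finset (ZMod p)) :
    ∑ a ∈ A, ∑ b ∈ A, oker e p χ a b = osum (e p) χ A := by
  unfold oker osum
  refine sum_congr rfl fun a _ => ?_
  rw [sum_filter]

theorem oker_le (e : ∀ p : ℕ, ZMod p → ℕ) (p : ℕ) (hp : p.Prime) (χ : MulChar (ZMod p) ℂ)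
    (x y : ZMod p) : ‖oker e p χ x y‖ ≤ 1 := by
  have : Fact p.Prime := ⟨hp⟩
  unfold oker
  split_ifs
  · exact norm_le_one χ _
  · simp

section onePrime

variable {p : ℕ} [Fact p.Prime] (χ : MulChar (ZMod p) ℂ)

theorem osum_eq (e : ZMod p → ℕ) (A : Finset (ZMod p)) :
    osum e χ A = O e (fun x y => χ (y - x)) A := rfl

theorem T_eq (A C : Finset (ZMod p)) :
    T (fun x y => χ (y - x)) A C = ∑ a ∈ A.image (fun x => -x), ∑ b ∈ C, χ (a + b) := by
  unfold T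
  rw [sum_image fun x _ y _ h => neg_injective h]
  refine sum_congr rfl fun a _ => sum_congr rfl fun b _ => ?_
  rw [neg_add_eq_sub]

theorem T_eq' (A C : Finset (ZMod p)) :
    T (fun x y => χ (y - x)) (A.image (fun x => -x)) C = dsum χ A C := by
  rw [T_eq, image_image]
  have : (fun x : ZMod p => -x) ∘ (fun x : ZMod p => -x) = id := by
    funext x; simp
  rw [this, image_id]
  rfl

theorem card_neg (A : Finset (ZMod p)) : (A.image (fun x => -x)).card = A.card :=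
  card_image_of_injective _ neg_injective

theorem symm_ker (x y : ZMod p) : χ (x - y) = χ (-1) * χ (y - x) := by
  rw [← map_mul]; congr 1; ring

theorem norm_neg_one : ‖χ (-1)‖ = 1 := norm_unit χ (neg_ne_zero.2 one_ne_zero)

/-- the classical bound, without square roots of the cardinalities -/
theorem T_classical (hχ : χ ≠ 1) (A C : Finset (ZMod p)) :
    ‖T (fun x y => χ (y - x)) A C‖ ≤ 0 * ((A.card : ℝ) * C.card) +
      Real.sqrt p * max (A.card : ℝ) C.card := by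
  have hp0 : (0 : ℝ) ≤ p := Nat.cast_nonneg _
  rw [T_eq]
  have h := W_bound χ hχ (ind (A.image fun x => -x)) (ind C)
  rw [W_ind] at h
  have e1 : ∀ X : Finset (ZMod p), ∑ x : ZMod p, ind X x ^ 2 = X.card := by
    intro X
    unfold ind
    simp
  rw [e1, e1, card_neg] at h
  have hm1 := le_max_left (A.card : ℝ) (C.card : ℝ)
  have hm2 := le_max_right (A.card : ℝ) (C.card : ℝ)
  have hA : (0 : ℝ) ≤ A.card := Nat.cast_nonneg _
  have hC : (0 : ℝ) ≤ C.card := Nat.cast_nonneg _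
  rw [zero_mul, zero_add]
  refine abs_le_of_sq_le_sq' ?_ (by positivity) |>.2
  change ‖dsum χ _ _‖ ^ 2 ≤ _
  calc _ ≤ _ := h
    _ = (p : ℝ) * (A.card * C.card) := by ring
    _ ≤ (p : ℝ) * (max (A.card : ℝ) C.card * max (A.card : ℝ) C.card) := by
        refine mul_le_mul_of_nonneg_left (mul_le_mul hm1 hm2 hC (hA.trans hm1)) hp0
    _ = (Real.sqrt p * max (A.card : ℝ) C.card) ^ 2 := by
        rw [mul_pow, Real.sq_sqrt hp0]; ring

/-- **Explicit bound for the ordered sums**, every prime and every order. -/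
theorem osum_classical (hχ : χ ≠ 1) (e : ZMod p → ℕ) (he : Function.Injective e)
    (A : Finset (ZMod p)) :
    ‖osum e χ A‖ ≤ Real.sqrt p * (Nat.clog 2 A.card * A.card) := by
  have h := ordered_from_two' (k := fun x y => χ (y - x)) he 0 (Real.sqrt p) le_rfl
    (Real.sqrt_nonneg _) (T_classical χ hχ) A
  rw [mul_zero, zero_mul, zero_add] at h
  exact h

/-- for even characters the difference sum is twice the ordered sum -/
theorem even_sum (hev : χ (-1) = 1) (e : ZMod p → ℕ) (he : Function.Injective e)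
    (A : Finset (ZMod p)) : ∑ a ∈ A, ∑ b ∈ A, χ (a - b) = 2 * osum e χ A := by
  have h1 : ∀ a b : ZMod p, χ (a - b) = (if e a < e b then χ (b - a) else 0) +
      (if e b < e a then χ (a - b) else 0) := by
    intro a b
    have hs : χ (a - b) = χ (b - a) := by rw [symm_ker, hev, one_mul]
    rcases lt_trichotomy (e a) (e b) with h | h | h
    · rw [if_pos h, if_neg (by omega), add_zero, hs]
    · have : a = b := he h
      subst this
      rw [if_neg (lt_irrefl _), sub_self, MulChar.map_zero χ, add_zero]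
    · rw [if_neg (by omega), if_pos h, zero_add]
  have h2 : osum e χ A = ∑ a ∈ A, ∑ b ∈ A, (if e a < e b then χ (b - a) else 0) := by
    unfold osum
    exact sum_congr rfl fun a _ => by rw [sum_filter]
  have h3 : ∑ a ∈ A, ∑ b ∈ A, (if e b < e a then χ (a - b) else 0) =
      ∑ a ∈ A, ∑ b ∈ A, (if e a < e b then χ (b - a) else 0) := sum_comm
  rw [sum_congr rfl fun a _ => sum_congr rfl fun b _ => h1 a b]
  simp only [sum_add_distrib]
  rw [h3, h2]
  ring

/-- for odd characters the difference sum is zero -/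
theorem odd_sum (hodd : χ (-1) = -1) (A : Finset (ZMod p)) :
    ∑ a ∈ A, ∑ b ∈ A, χ (a - b) = 0 := by
  have h : ∑ a ∈ A, ∑ b ∈ A, χ (a - b) = - ∑ a ∈ A, ∑ b ∈ A, χ (a - b) := by
    conv_lhs => rw [sum_comm]
    rw [← sum_neg_distrib]
    refine sum_congr rfl fun a _ => ?_
    rw [← sum_neg_distrib]
    refine sum_congr rfl fun b _ => ?_
    rw [symm_ker, hodd, neg_one_mul]
  have h2 : (2 : ℂ) * ∑ a ∈ A, ∑ b ∈ A, χ (a - b) = 0 := by linear_combination h
  exact (mul_eq_zero.1 h2).resolve_left two_ne_zero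

end onePrime

/-- The bound `p ^ (-δ) |A|²` for the ordered sums over the sets with more than `p ^ α` elements and
the characters in `F`. -/
def OrdSaves (e : ∀ p : ℕ, ZMod p → ℕ) (F : ∀ p : ℕ, MulChar (ZMod p) ℂ → Prop)
    (α δ : ℝ) : Prop :=
  ∃ p₀ : ℕ, ∀ p : ℕ, p.Prime → p₀ < p → ∀ A : Finset (ZMod p), (p : ℝ) ^ α < (A.card : ℝ) →
    ∀ χ : MulChar (ZMod p) ℂ, χ ≠ 1 → F p χ →
      ‖osum (e p) χ A‖ ≤ (p : ℝ) ^ (-δ) * (A.card : ℝ) ^ 2

theorem ordSaves_iff (e : ∀ p : ℕ, ZMod p → ℕ) (F : ∀ p : ℕ, MulChar (ZMod p) ℂ → Prop)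
    (α δ : ℝ) : OrdSaves e F α δ ↔ KSaves (oker e) F α δ := by
  unfold OrdSaves KSaves
  simp only [oker_sum]

variable {F : ∀ p : ℕ, MulChar (ZMod p) ℂ → Prop} {e : ∀ p : ℕ, ZMod p → ℕ}

/-- integers with `2 ^ j ≤ K p` -/
theorem few_levels (K s : ℝ) (hK : 0 < K) (hs : 0 < s) : ∃ C : ℝ, 0 < C ∧
    ∀ p : ℕ, 1 ≤ p → ∀ j : ℕ, (2 : ℝ) ^ j ≤ K * p → (j : ℝ) ≤ C * (p : ℝ) ^ s := by
  refine ⟨2 * (K ^ s / s), by positivity, fun p hp j hj => ?_⟩
  have hp0 : (0 : ℝ) < p := by exact_mod_cast hp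
  have h1 := Real.log_le_log (by positivity) hj
  rw [Real.log_pow] at h1
  have h2 : Real.log (K * p) ≤ (K * p) ^ s / s := Real.log_le_rpow_div (by positivity) hs
  rw [Real.mul_rpow hK.le hp0.le] at h2
  have h3 := Real.log_two_gt_d9
  have hj0 : (0 : ℝ) ≤ j := Nat.cast_nonneg _
  have h4 : (j : ℝ) * (1 / 2) ≤ j * Real.log 2 := mul_le_mul_of_nonneg_left (by linarith) hj0
  have h5 : 2 * (K ^ s / s) * (p : ℝ) ^ s = 2 * (K ^ s * (p : ℝ) ^ s / s) := by ring
  rw [h5]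
  linarith

/-- **Two sets control the ordered sums.** -/
theorem ordered_of_two {α δ ε δ' : ℝ}
    (he : ∀ p : ℕ, p.Prime → Function.Injective (e p)) (h : Saves F α α δ)
    (hδ : δ' < δ) (hε : δ' < ε - α) : OrdSaves e F ε δ' := by
  obtain ⟨p₀, h⟩ := h
  set s : ℝ := (ε - α - δ') / 2 with hs
  have hs0 : 0 < s := by rw [hs]; linarith
  obtain ⟨C, hC, hlev⟩ := few_levels 2 s (by norm_num) hs0
  obtain ⟨p₁, hp₁⟩ := large 4 (δ - δ') (by linarith)
  obtain ⟨p₂, hp₂⟩ := large (2 * C) s hs0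
  refine ⟨p₀ + p₁ + p₂, fun p hp hlt A hA χ hχ hF => ?_⟩
  have : Fact p.Prime := ⟨hp⟩
  have hp0 : (0 : ℝ) < p := by exact_mod_cast hp.pos
  have e1 := hp₁ p (by omega)
  have e2 := hp₂ p (by omega)
  have H : ∀ X Y : Finset (ZMod p), ‖T (fun x y => χ (y - x)) X Y‖ ≤
      (p : ℝ) ^ (-δ) * (X.card * Y.card) + (p : ℝ) ^ α * max (X.card : ℝ) Y.card := by
    intro X Y
    have hX : (0 : ℝ) ≤ X.card := Nat.cast_nonneg _
    have hY : (0 : ℝ) ≤ Y.card := Nat.cast_nonneg _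
    have hm1 := le_max_left (X.card : ℝ) (Y.card : ℝ)
    have hm2 := le_max_right (X.card : ℝ) (Y.card : ℝ)
    have t1 : 0 ≤ (p : ℝ) ^ (-δ) * (X.card * Y.card) := by positivity
    have t2 : 0 ≤ (p : ℝ) ^ α * max (X.card : ℝ) Y.card := by positivity
    by_cases h1 : (p : ℝ) ^ α < (X.card : ℝ)
    · by_cases h2 : (p : ℝ) ^ α < (Y.card : ℝ)
      · rw [T_eq]
        have h3 := h p hp (by omega) (X.image fun x => -x) Y (by rw [card_neg]; exact h1) h2 χ hχ hF
        rw [card_neg] at h3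
        calc _ ≤ _ := h3
          _ = (p : ℝ) ^ (-δ) * (X.card * Y.card) := by ring
          _ ≤ _ := by linarith
      · push Not at h2
        have h3 := T_trivial (k := fun x y => χ (y - x)) (fun x y => norm_le_one χ _) X Y
        have h4 : (X.card : ℝ) * Y.card ≤ max (X.card : ℝ) Y.card * (p : ℝ) ^ α :=
          mul_le_mul hm1 h2 hY (hX.trans hm1)
        linarith
    · push Not at h1
      have h3 := T_trivial (k := fun x y => χ (y - x)) (fun x y => norm_le_one χ _) X Y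
      have h4 : (X.card : ℝ) * Y.card ≤ (p : ℝ) ^ α * max (X.card : ℝ) Y.card :=
        mul_le_mul h1 hm2 hY (by positivity)
      linarith
  have h1 := ordered_from_two' (k := fun x y => χ (y - x)) (he p hp) ((p : ℝ) ^ (-δ)) ((p : ℝ) ^ α)
    (by positivity) (by positivity) H A
  rw [osum_eq]
  refine h1.trans ?_
  have hA0 : (0 : ℝ) < A.card := (Real.rpow_pos_of_pos hp0 ε).trans hA
  have hA1 : 1 ≤ A.card := by exact_mod_cast hA0
  have hAp : A.card ≤ p := by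
    have := card_le_univ A
    rwa [ZMod.card] at this
  have hclog : ((Nat.clog 2 A.card : ℕ) : ℝ) ≤ C * (p : ℝ) ^ s := by
    refine hlev p hp.one_le _ ?_
    have hlt2 : 2 ^ Nat.clog 2 A.card ≤ 2 * A.card := by
      rcases hA1.eq_or_lt with h3 | h3
      · rw [← h3]; simp
      · have h4 := Nat.pow_pred_clog_lt_self (b := 2) (by norm_num) h3
        have h5 : 0 < Nat.clog 2 A.card := Nat.clog_pos (by norm_num) h3
        calc 2 ^ Nat.clog 2 A.card = 2 * 2 ^ (Nat.clog 2 A.card).pred := by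
              rw [← pow_succ']
              congr 1
              exact (Nat.succ_pred_eq_of_pos h5).symm
          _ ≤ _ := Nat.mul_le_mul_left 2 h4.le
    have h6 : 2 ^ Nat.clog 2 A.card ≤ 2 * p := hlt2.trans (Nat.mul_le_mul_left 2 hAp)
    exact_mod_cast h6
  set y : ℝ := (p : ℝ) ^ (-δ') with hy
  have t1 : 4 * (p : ℝ) ^ (-δ) ≤ y := by
    calc 4 * (p : ℝ) ^ (-δ) ≤ (p : ℝ) ^ (δ - δ') * (p : ℝ) ^ (-δ) :=
          mul_le_mul_of_nonneg_right e1 (by positivity)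
      _ = y := by rw [hy, ← Real.rpow_add hp0]; congr 1; ring
  have t2 : 2 * ((p : ℝ) ^ α * (C * (p : ℝ) ^ s)) ≤ y * A.card := by
    calc 2 * ((p : ℝ) ^ α * (C * (p : ℝ) ^ s)) = (2 * C) * ((p : ℝ) ^ α * (p : ℝ) ^ s) := by ring
      _ ≤ (p : ℝ) ^ s * ((p : ℝ) ^ α * (p : ℝ) ^ s) :=
          mul_le_mul_of_nonneg_right e2 (by positivity)
      _ = y * (p : ℝ) ^ ε := by
          rw [hy, ← Real.rpow_add hp0, ← Real.rpow_add hp0, ← Real.rpow_add hp0]
          congr 1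
          rw [hs]; ring
      _ ≤ _ := mul_le_mul_of_nonneg_left hA.le (by positivity)
  have t3 : (p : ℝ) ^ α * ((Nat.clog 2 A.card : ℕ) : ℝ) ≤ y * A.card / 2 := by
    have := mul_le_mul_of_nonneg_left hclog (Real.rpow_nonneg hp0.le α)
    linarith
  have t4 := mul_le_mul_of_nonneg_right t3 hA0.le
  have t5 := mul_le_mul_of_nonneg_right t1 (sq_nonneg (A.card : ℝ))
  nlinarith

/-- **Ordered sums over one set control two sets.** -/
theorem two_of_ordered {ε₁ δ₁ ε δ : ℝ}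
    (he : ∀ p : ℕ, p.Prime → Function.Injective (e p)) (h0 : 0 < ε₁)
    (H : OrdSaves e F ε₁ δ₁) (hδ : δ < δ₁) (hε : δ < ε - ε₁) (hεε : ε₁ < ε) :
    Saves F ε ε δ := by
  obtain ⟨p₀, H⟩ := H
  obtain ⟨C, hC, hlev⟩ := few_levels 6 ε₁ (by norm_num) h0
  obtain ⟨p₁, hp₁⟩ := large 288 (δ₁ - δ) (by linarith)
  obtain ⟨p₂, hp₂⟩ := large (2 * (48 + 6 * C)) (ε - ε₁ - δ) (by linarith)
  refine ⟨p₀ + p₁ + p₂, fun p hp hlt A B hA hB χ hχ hF => ?_⟩
  have : Fact p.Prime := ⟨hp⟩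
  have hp0 : (0 : ℝ) < p := by exact_mod_cast hp.pos
  have hp1 : (1 : ℝ) ≤ p := by exact_mod_cast hp.one_le
  have e1 := hp₁ p (by omega)
  have e2 := hp₂ p (by omega)
  set M : ℕ := ⌈(p : ℝ) ^ ε⌉₊ with hM
  have hM1 : (p : ℝ) ^ ε ≤ (M : ℝ) := Nat.le_ceil _
  have hx0 : 0 < (p : ℝ) ^ ε := Real.rpow_pos_of_pos hp0 _
  have hM0 : (0 : ℝ) < M := by linarith
  have hAM : M ≤ A.card := Nat.ceil_le.2 hA.le
  have hBM : M ≤ B.card := Nat.ceil_le.2 hB.le
  have hMp : M ≤ p := by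
    have h1 := card_le_univ A
    rw [ZMod.card] at h1
    omega
  obtain ⟨A₁, -, hA1, h1⟩ := sub_one χ A B M hAM
  obtain ⟨B₁, -, hB1, h2⟩ := sub_one χ B A₁ M hBM
  rw [dsum_comm χ B, dsum_comm χ B₁] at h2
  change ‖dsum χ A B‖ ≤ _
  set y : ℝ := (p : ℝ) ^ (-δ) with hy
  have hy0 : 0 < y := Real.rpow_pos_of_pos hp0 _
  -- parameters
  set x : ℝ := (p : ℝ) ^ ε₁ with hx
  have hx1 : 1 ≤ x := Real.one_le_rpow hp1 h0.le
  set n : ℕ := ⌈x⌉₊ with hn
  have hn1 : x ≤ (n : ℝ) := Nat.le_ceil _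
  have hn2 : (n : ℝ) ≤ 2 * x := ceil_le_two_mul hx1
  have hn0 : 0 < n := Nat.ceil_pos.2 (by linarith)
  have hnM : n ≤ M := Nat.ceil_le_ceil (Real.rpow_le_rpow_of_exponent_le hp1 hεε.le)
  set j : ℕ := Nat.clog 2 (2 * M / n + 1) with hj
  have hj1 : 2 * M ≤ 2 ^ j * n := by
    have h3 : 2 * M / n + 1 ≤ 2 ^ j := Nat.le_pow_clog (by norm_num) _
    have h4 : 2 * M < n * (2 * M / n + 1) := Nat.lt_mul_div_succ (2 * M) hn0
    calc 2 * M ≤ n * (2 * M / n + 1) := h4.le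
      _ ≤ n * 2 ^ j := Nat.mul_le_mul_left n h3
      _ = _ := mul_comm _ _
  have hj2 : 2 ^ j * n ≤ 6 * M := by
    have h3 : 2 ^ j ≤ 2 * (2 * M / n + 1) := by
      have h4 : 1 < 2 * M / n + 1 := by
        have h5 : 1 ≤ 2 * M / n := (Nat.one_le_div_iff hn0).2 (by omega)
        omega
      have h5 := Nat.pow_pred_clog_lt_self (b := 2) (by norm_num) h4
      have h6 : 0 < Nat.clog 2 (2 * M / n + 1) := Nat.clog_pos (by norm_num) h4
      calc 2 ^ j = 2 * 2 ^ (Nat.clog 2 (2 * M / n + 1)).pred := by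
            rw [← pow_succ', hj]
            congr 1
            exact (Nat.succ_pred_eq_of_pos h6).symm
        _ ≤ _ := Nat.mul_le_mul_left 2 h5.le
    calc 2 ^ j * n ≤ 2 * (2 * M / n + 1) * n := Nat.mul_le_mul_right n h3
      _ = 2 * (2 * M / n * n) + 2 * n := by ring
      _ ≤ 2 * (2 * M) + 2 * M := by
          have h7 := Nat.div_mul_le_self (2 * M) n
          omega
      _ = _ := by ring
  have hj3 : (2 : ℝ) ^ j * n ≤ 6 * M := by exact_mod_cast hj2
  have hjp : (2 : ℝ) ^ j ≤ 6 * p := by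
    have h3 : (1 : ℝ) ≤ n := by exact_mod_cast hn0
    have h4 : (2 : ℝ) ^ j ≤ 2 ^ j * n := le_mul_of_one_le_right (by positivity) h3
    have h5 : (M : ℝ) ≤ p := by exact_mod_cast hMp
    linarith
  have hjC : (j : ℝ) ≤ C * x := hlev p hp.one_le j hjp
  have hjx : (2 : ℝ) ^ j * x ≤ 6 * M :=
    (mul_le_mul_of_nonneg_left hn1 (by positivity)).trans hj3
  -- the bound
  have h3 : ‖dsum χ A₁ B₁‖ ≤ y * (M : ℝ) ^ 2 := by
    rw [← T_eq']
    have h4 := two_sets (e := e p) (k := fun x y => χ (y - x)) (he p hp) (fun x y => norm_le_one χ _)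
      (χ (-1)) (norm_neg_one χ) (fun x y => symm_ker χ x y) (x ^ 2) ((p : ℝ) ^ (-δ₁))
      (by positivity) (by positivity) (fun X => by
        rcases lt_or_ge x (X.card : ℝ) with h5 | h5
        · have h6 := H p hp (by omega) X h5 χ hχ hF
          rw [osum_eq] at h6
          have : 0 ≤ x ^ 2 := by positivity
          linarith
        · have h6 := O_trivial (e := e p) (k := fun x y => χ (y - x))
            (fun x y => norm_le_one χ _) X
          have h7 : (X.card : ℝ) ^ 2 ≤ x ^ 2 := pow_le_pow_left₀ (Nat.cast_nonneg _) h5 2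
          have h8 : 0 ≤ (p : ℝ) ^ (-δ₁) * (X.card : ℝ) ^ 2 := by positivity
          linarith) n j (A₁.image fun x => -x) B₁ (by rw [card_neg, hA1, hB1]; omega)
    refine h4.trans ?_
    have g1 : (2 ^ j * n : ℝ) * (n + j) ≤ 6 * M * ((2 + C) * x) :=
      mul_le_mul hj3 (by linarith) (by positivity) (by positivity)
    have g2 : 6 * x ^ 2 * 2 ^ j ≤ 36 * M * x := by
      calc 6 * x ^ 2 * 2 ^ j = 6 * x * (2 ^ j * x) := by ring
        _ ≤ 6 * x * (6 * M) := mul_le_mul_of_nonneg_left hjx (by positivity)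
        _ = _ := by ring
    have g3 : 4 * (p : ℝ) ^ (-δ₁) * (2 ^ j * n : ℝ) ^ 2 ≤ 144 * (p : ℝ) ^ (-δ₁) * (M : ℝ) ^ 2 := by
      have : (2 ^ j * n : ℝ) ^ 2 ≤ (6 * M) ^ 2 := pow_le_pow_left₀ (by positivity) hj3 2
      calc 4 * (p : ℝ) ^ (-δ₁) * (2 ^ j * n : ℝ) ^ 2 ≤ 4 * (p : ℝ) ^ (-δ₁) * (6 * M) ^ 2 :=
            mul_le_mul_of_nonneg_left this (by positivity)
        _ = _ := by ring
    have t1 : 288 * (p : ℝ) ^ (-δ₁) ≤ y := by
      calc 288 * (p : ℝ) ^ (-δ₁) ≤ (p : ℝ) ^ (δ₁ - δ) * (p : ℝ) ^ (-δ₁) :=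
            mul_le_mul_of_nonneg_right e1 (by positivity)
        _ = y := by rw [hy, ← Real.rpow_add hp0]; congr 1; ring
    have t2 : 2 * (48 + 6 * C) * x ≤ y * M := by
      calc 2 * (48 + 6 * C) * x ≤ (p : ℝ) ^ (ε - ε₁ - δ) * x :=
            mul_le_mul_of_nonneg_right e2 (by positivity)
        _ = y * (p : ℝ) ^ ε := by
            rw [hy, hx, ← Real.rpow_add hp0, ← Real.rpow_add hp0]; congr 1; ring
        _ ≤ _ := mul_le_mul_of_nonneg_left hM1 hy0.le
    have t3 := mul_le_mul_of_nonneg_right t2 hM0.le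
    have t4 := mul_le_mul_of_nonneg_right t1 (sq_nonneg (M : ℝ))
    nlinarith
  have h4 : ((M : ℝ) * M) * ‖dsum χ A B‖ ≤ ((M : ℝ) * M) * (y * (A.card : ℝ) * (B.card : ℝ)) := by
    have h5 := mul_le_mul_of_nonneg_left h1 hM0.le
    have h6 := mul_le_mul_of_nonneg_left h2 (Nat.cast_nonneg A.card (α := ℝ))
    have h7 : (A.card : ℝ) * (B.card * ‖dsum χ A₁ B₁‖) ≤
        (A.card : ℝ) * (B.card * (y * (M : ℝ) ^ 2)) := by
      gcongr
    calc ((M : ℝ) * M) * ‖dsum χ A B‖ = M * (M * ‖dsum χ A B‖) := by ring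
      _ ≤ M * (A.card * ‖dsum χ A₁ B‖) := h5
      _ = A.card * (M * ‖dsum χ A₁ B‖) := by ring
      _ ≤ A.card * (B.card * ‖dsum χ A₁ B₁‖) := h6
      _ ≤ _ := h7
      _ = _ := by ring
  exact le_of_mul_le_mul_left h4 (by positivity)

end Pool.Agent.V7H48.OD
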