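import Pool.Agent.V7H48.OD.Asym

/-! # Q1 for difference sums, ordered difference sums, and sums over two sets -/

set_option autoImplicit false

namespace Pool.Agent.V7H48.OD

open Finset
open Pool.Agent.N793.PG
open Pool.Agent.N793.GP

/-- the two forms of a power saving -/
theorem conv (Φ : ∀ p : ℕ, Finset (ZMod p) → MulChar (ZMod p) ℂ → ℝ)
    (R : ∀ p : ℕ, Finset (ZMod p) → Prop) (G : ∀ p : ℕ, MulChar (ZMod p) ℂ → Prop) (α : ℝ)
    (hα : 0 < α) :
    (∃ τ : ℝ, 0 < τ ∧ ∃ P : ℕ, ∀ p : ℕ, p.Prime → P ≤ p → ∀ A : Finset (ZMod p),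
      (p : ℝ) ^ α < (A.card : ℝ) → R p A → ∀ χ : MulChar (ZMod p) ℂ, χ ≠ 1 → G p χ →
        Φ p A χ < (A.card : ℝ) ^ (2 - τ)) ↔
    ∃ δ : ℝ, 0 < δ ∧ ∃ p₀ : ℕ, ∀ p : ℕ, p.Prime → p₀ < p → ∀ A : Finset (ZMod p),
      (p : ℝ) ^ α < (A.card : ℝ) → R p A → ∀ χ : MulChar (ZMod p) ℂ, χ ≠ 1 → G p χ →
        Φ p A χ ≤ (p : ℝ) ^ (-δ) * (A.card : ℝ) ^ 2 := by
  constructor
  · rintro ⟨τ, hτ, P, h⟩
    refine ⟨α * τ, by positivity, P, fun p hp hlt A hA hR χ hχ hG =>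
      (h p hp hlt.le A hA hR χ hχ hG).le.trans ?_⟩
    have hp0 : (0 : ℝ) < p := by exact_mod_cast hp.pos
    have hA0 : (0 : ℝ) < A.card := (Real.rpow_pos_of_pos hp0 _).trans hA
    have h1 : (A.card : ℝ) ^ (2 - τ) = (A.card : ℝ) ^ (-τ) * (A.card : ℝ) ^ 2 := by
      rw [← Real.rpow_natCast, ← Real.rpow_add hA0]; congr 1; push_cast; ring
    rw [h1]
    refine mul_le_mul_of_nonneg_right ?_ (by positivity)
    calc (A.card : ℝ) ^ (-τ) ≤ ((p : ℝ) ^ α) ^ (-τ) :=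
          Real.rpow_le_rpow_of_nonpos (by positivity) hA.le (by linarith)
      _ = (p : ℝ) ^ (-(α * τ)) := by rw [← Real.rpow_mul hp0.le]; congr 1; ring
  · rintro ⟨δ, hδ, p₀, h⟩
    refine ⟨δ / 2, by positivity, p₀ + 1, fun p hp hlt A hA hR χ hχ hG =>
      (h p hp (by omega) A hA hR χ hχ hG).trans_lt ?_⟩
    have hp0 : (0 : ℝ) < p := by exact_mod_cast hp.pos
    have hp1 : (1 : ℝ) < p := by exact_mod_cast hp.one_lt
    have : Fact p.Prime := ⟨hp⟩
    have hA0 : (0 : ℝ) < A.card := (Real.rpow_pos_of_pos hp0 _).trans hA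
    have hAp : (A.card : ℝ) ≤ p := by
      have := card_le_univ A
      rw [ZMod.card] at this
      exact_mod_cast this
    have h1 : (A.card : ℝ) ^ (2 - δ / 2) = (A.card : ℝ) ^ (-(δ / 2)) * (A.card : ℝ) ^ 2 := by
      rw [← Real.rpow_natCast, ← Real.rpow_add hA0]; congr 1; push_cast; ring
    rw [h1]
    refine mul_lt_mul_of_pos_right ?_ (by positivity)
    calc (p : ℝ) ^ (-δ) < (p : ℝ) ^ (-(δ / 2)) :=
          Real.rpow_lt_rpow_of_exponent_lt hp1 (by linarith)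
      _ ≤ (A.card : ℝ) ^ (-(δ / 2)) :=
          Real.rpow_le_rpow_of_nonpos hA0 hAp (by linarith)

/-- the kernel of the difference sums -/
noncomputable def dker (p : ℕ) (χ : MulChar (ZMod p) ℂ) (x y : ZMod p) : ℂ := χ (x - y)

theorem dker_le (p : ℕ) (hp : p.Prime) (χ : MulChar (ZMod p) ℂ) (x y : ZMod p) :
    ‖dker p χ x y‖ ≤ 1 := by
  have : Fact p.Prime := ⟨hp⟩
  exact norm_le_one χ _

/-- even characters -/
def EvenChar (p : ℕ) (χ : MulChar (ZMod p) ℂ) : Prop := χ (-1) = 1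

theorem even_or_odd {p : ℕ} (χ : MulChar (ZMod p) ℂ) : χ (-1) = 1 ∨ χ (-1) = -1 := by
  have h : χ (-1) * χ (-1) = 1 := by
    rw [← map_mul]; simp
  exact mul_self_eq_one_iff.1 h

theorem val_inj (p : ℕ) (hp : p.Prime) : Function.Injective (ZMod.val : ZMod p → ℕ) := by
  have : Fact p.Prime := ⟨hp⟩
  exact ZMod.val_injective p

/-- difference sums for all characters and ordered sums for the even characters -/
theorem dker_iff {e : ∀ p : ℕ, ZMod p → ℕ} (he : ∀ p : ℕ, p.Prime → Function.Injective (e p))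
    (ε : ℝ) : (∃ δ : ℝ, 0 < δ ∧ KSaves dker (fun _ _ => True) ε δ) ↔
      ∃ δ : ℝ, 0 < δ ∧ OrdSaves e EvenChar ε δ := by
  constructor
  · rintro ⟨δ, hδ, p₀, h⟩
    refine ⟨δ, hδ, p₀, fun p hp hlt A hA χ hχ hF => ?_⟩
    have : Fact p.Prime := ⟨hp⟩
    have h1 := h p hp hlt A hA χ hχ trivial
    unfold dker at h1
    rw [even_sum χ hF (e p) (he p hp) A, norm_mul] at h1
    have h2 : ‖(2 : ℂ)‖ = 2 := by simp
    rw [h2] at h1
    have := norm_nonneg (osum (e p) χ A)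
    linarith
  · rintro ⟨δ, hδ, p₀, h⟩
    obtain ⟨p₁, hp₁⟩ := large 2 (δ / 2) (by linarith)
    refine ⟨δ / 2, by linarith, p₀ + p₁, fun p hp hlt A hA χ hχ _ => ?_⟩
    have : Fact p.Prime := ⟨hp⟩
    have hp0 : (0 : ℝ) < p := by exact_mod_cast hp.pos
    unfold dker
    rcases even_or_odd χ with hev | hodd
    · have h1 := h p hp (by omega) A hA χ hχ hev
      rw [even_sum χ hev (e p) (he p hp) A, norm_mul]
      have h2 : ‖(2 : ℂ)‖ = 2 := by simp
      rw [h2]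
      have h3 : 2 * (p : ℝ) ^ (-δ) ≤ (p : ℝ) ^ (-(δ / 2)) := by
        calc 2 * (p : ℝ) ^ (-δ) ≤ (p : ℝ) ^ (δ / 2) * (p : ℝ) ^ (-δ) :=
              mul_le_mul_of_nonneg_right (hp₁ p (by omega)) (by positivity)
          _ = _ := by rw [← Real.rpow_add hp0]; congr 1; ring
      calc 2 * ‖osum (e p) χ A‖ ≤ 2 * ((p : ℝ) ^ (-δ) * (A.card : ℝ) ^ 2) :=
            mul_le_mul_of_nonneg_left h1 (by norm_num)
        _ = 2 * (p : ℝ) ^ (-δ) * (A.card : ℝ) ^ 2 := by ring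
        _ ≤ _ := mul_le_mul_of_nonneg_right h3 (by positivity)
    · rw [odd_sum χ hodd A, norm_zero]
      positivity

/-- ordered sums and two sets have the same thresholds -/
theorem ordered_iff_two {F : ∀ p : ℕ, MulChar (ZMod p) ℂ → Prop} {e : ∀ p : ℕ, ZMod p → ℕ}
    (he : ∀ p : ℕ, p.Prime → Function.Injective (e p)) (α : ℝ) (hα : 0 ≤ α) :
    (∀ ε : ℝ, α < ε → ∃ δ : ℝ, 0 < δ ∧ OrdSaves e F ε δ) ↔
      ∀ ε : ℝ, α < ε → ∃ δ : ℝ, 0 < δ ∧ Saves F ε ε δ := by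
  constructor
  · intro h ε hε
    obtain ⟨δ, hδ, H⟩ := h ((α + ε) / 2) (by linarith)
    have h1 : 0 < min δ ((ε - α) / 2) := lt_min hδ (by linarith)
    have h2 := min_le_left δ ((ε - α) / 2)
    have h3 := min_le_right δ ((ε - α) / 2)
    exact ⟨min δ ((ε - α) / 2) / 2, by linarith,
      two_of_ordered he (by linarith) H (by linarith) (by linarith) (by linarith)⟩
  · intro h ε hε
    obtain ⟨δ, hδ, H⟩ := h ((α + ε) / 2) (by linarith)
    have h1 : 0 < min δ ((ε - α) / 2) := lt_min hδ (by linarith)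
    have h2 := min_le_left δ ((ε - α) / 2)
    have h3 := min_le_right δ ((ε - α) / 2)
    exact ⟨min δ ((ε - α) / 2) / 2, by linarith,
      ordered_of_two he H (by linarith) (by linarith)⟩

end Pool.Agent.V7H48.OD
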