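import Mathlib

/-! # Ordered sums over one set and sums over two sets

`e` is an injective function with values in the natural numbers (a linear order), `k` is a kernel.
-/

set_option autoImplicit false

namespace Pool.Agent.V7H48.OD

open Finset

variable {α : Type} [DecidableEq α] (e : α → ℕ) (k : α → α → ℂ)

/-- the sum over two sets -/
noncomputable def T (A C : Finset α) : ℂ := ∑ a ∈ A, ∑ c ∈ C, k a c

/-- the sum over the pairs `a, b` of elements of `A` such that `a` comes before `b` -/
noncomputable def O (A : Finset α) : ℂ := ∑ a ∈ A, ∑ b ∈ A.filter (fun b => e a < e b), k a b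

variable {e k}

omit [DecidableEq α] in
theorem T_trivial (hk : ∀ x y, ‖k x y‖ ≤ 1) (A C : Finset α) :
    ‖T k A C‖ ≤ (A.card : ℝ) * C.card := by
  unfold T
  calc _ ≤ ∑ a ∈ A, ‖∑ b ∈ C, k a b‖ := norm_sum_le _ _
    _ ≤ ∑ a ∈ A, ∑ b ∈ C, (1 : ℝ) := by
        refine sum_le_sum fun a _ => (norm_sum_le _ _).trans ?_
        exact sum_le_sum fun b _ => hk a b
    _ = _ := by simp

omit [DecidableEq α] in
theorem O_trivial (hk : ∀ x y, ‖k x y‖ ≤ 1) (A : Finset α) : ‖O e k A‖ ≤ (A.card : ℝ) ^ 2 := by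
  unfold O
  calc _ ≤ ∑ a ∈ A, ‖∑ b ∈ A.filter (fun b => e a < e b), k a b‖ := norm_sum_le _ _
    _ ≤ ∑ a ∈ A, (A.card : ℝ) := by
        refine sum_le_sum fun a _ => (norm_sum_le _ _).trans ?_
        calc ∑ b ∈ A.filter (fun b => e a < e b), ‖k a b‖ ≤
            ∑ b ∈ A.filter (fun b => e a < e b), (1 : ℝ) := sum_le_sum fun b _ => hk a b
          _ = ((A.filter (fun b => e a < e b)).card : ℝ) := by simp
          _ ≤ A.card := by exact_mod_cast card_filter_le _ _
    _ = _ := by rw [sum_const, nsmul_eq_mul]; ring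

/-- separated sets -/
theorem O_union (A C : Finset α) (h : ∀ a ∈ A, ∀ c ∈ C, e a < e c) :
    O e k (A ∪ C) = O e k A + O e k C + T k A C := by
  have hd : Disjoint A C := by
    rw [disjoint_left]
    intro x hA hC
    exact lt_irrefl _ (h x hA x hC)
  unfold O T
  rw [sum_union hd]
  have h1 : ∀ a ∈ A, ∑ b ∈ (A ∪ C).filter (fun b => e a < e b), k a b =
      ∑ b ∈ A.filter (fun b => e a < e b), k a b + ∑ c ∈ C, k a c := by
    intro a ha
    rw [filter_union, sum_union (disjoint_filter_filter hd)]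
    congr 1
    rw [filter_true_of_mem fun c hc => h a ha c hc]
  have h2 : ∀ c ∈ C, ∑ b ∈ (A ∪ C).filter (fun b => e c < e b), k c b =
      ∑ b ∈ C.filter (fun b => e c < e b), k c b := by
    intro c hc
    rw [filter_union, filter_false_of_mem fun a ha => not_lt.2 (h a ha c hc).le, empty_union]
  rw [sum_congr rfl h1, sum_congr rfl h2, sum_add_distrib]
  ring

theorem T_sep (w u : ℝ) (hu : 0 ≤ u) (H : ∀ X : Finset α, ‖O e k X‖ ≤ u * (X.card : ℝ) ^ 2 + w)
    (A C : Finset α) (h : ∀ a ∈ A, ∀ c ∈ C, e a < e c) :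
    ‖T k A C‖ ≤ 3 * w + 2 * u * ((A.card : ℝ) + C.card) ^ 2 := by
  have h1 := O_union (k := k) A C h
  have hc : ((A ∪ C).card : ℝ) ≤ A.card + C.card := by exact_mod_cast card_union_le A C
  have h2 := H (A ∪ C)
  have h3 := H A
  have h4 := H C
  have h5 : T k A C = O e k (A ∪ C) - O e k A - O e k C := by rw [h1]; ring
  have h6 : ‖T k A C‖ ≤ ‖O e k (A ∪ C)‖ + ‖O e k A‖ + ‖O e k C‖ := by
    rw [h5]
    exact (norm_sub_le _ _).trans (add_le_add (norm_sub_le _ _) le_rfl)
  have h7 : ((A ∪ C).card : ℝ) ^ 2 ≤ ((A.card : ℝ) + C.card) ^ 2 :=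
    pow_le_pow_left₀ (Nat.cast_nonneg _) hc 2
  have hA : (0 : ℝ) ≤ A.card := Nat.cast_nonneg _
  have hC : (0 : ℝ) ≤ C.card := Nat.cast_nonneg _
  have h8 : (A.card : ℝ) ^ 2 + (C.card : ℝ) ^ 2 ≤ ((A.card : ℝ) + C.card) ^ 2 := by nlinarith
  nlinarith [mul_le_mul_of_nonneg_left h7 hu, mul_le_mul_of_nonneg_left h8 hu]

omit [DecidableEq α] in
/-- the kernel is symmetric up to a unimodular factor -/
theorem T_symm (z : ℂ) (hz : ‖z‖ = 1) (hs : ∀ x y, k y x = z * k x y) (A C : Finset α) :
    ‖T k C A‖ = ‖T k A C‖ := by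
  have : T k C A = z * T k A C := by
    unfold T
    rw [sum_comm, mul_sum]
    refine sum_congr rfl fun a _ => ?_
    rw [mul_sum]
    exact sum_congr rfl fun c _ => hs a c
  rw [this, norm_mul, hz, one_mul]

/-- a threshold which cuts a pair of sets into halves -/
theorem cut (A C : Finset α) (N : ℕ) (hN : A.card + C.card ≤ 2 * N) : ∃ s : ℕ,
    (A.filter (fun x => e x < s)).card + (C.filter (fun x => e x < s)).card ≤ N ∧
    (A.filter (fun x => s < e x)).card + (C.filter (fun x => s < e x)).card ≤ N := by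
  set g : ℕ → ℕ := fun s => (A.filter (fun x => e x < s)).card + (C.filter (fun x => e x < s)).card
    with hg
  have hcomp : ∀ s, g (s + 1) + ((A.filter (fun x => s < e x)).card +
      (C.filter (fun x => s < e x)).card) = A.card + C.card := by
    intro s
    have h1 : ∀ X : Finset α, (X.filter (fun x => e x < s + 1)).card +
        (X.filter (fun x => s < e x)).card = X.card := by
      intro X
      rw [← card_filter_add_card_filter_not (s := X) (fun x => e x < s + 1)]
      congr 2
      refine filter_congr fun x _ => ?_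
      omega
    have h2 := h1 A
    have h3 := h1 C
    simp only [hg]
    omega
  by_cases hall : ∀ s, g (s + 1) ≤ N
  · refine ⟨(A ∪ C).sup e + 1, hall _, ?_⟩
    have h1 : ∀ X : Finset α, X ⊆ A ∪ C → X.filter (fun x => (A ∪ C).sup e + 1 < e x) = ∅ := by
      intro X hX
      refine filter_false_of_mem fun x hx => ?_
      have := le_sup (f := e) (hX hx)
      omega
    rw [h1 A subset_union_left, h1 C subset_union_right]
    simp
  · push Not at hall
    classical
    set s := Nat.find hall with hs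
    have h1 : N < g (s + 1) := Nat.find_spec hall
    refine ⟨s, ?_, ?_⟩
    · rcases Nat.eq_zero_or_pos s with h0 | h0
      · rw [h0]; simp
      · have h2 := Nat.find_min hall (show s - 1 < Nat.find hall by omega)
        push Not at h2
        rw [show s - 1 + 1 = s by omega] at h2
        exact h2
    · have h2 := hcomp s
      omega

omit [DecidableEq α] in
theorem card_level (he : Function.Injective e) (X : Finset α) (s : ℕ) :
    (X.filter (fun x => e x = s)).card ≤ 1 := by
  rw [card_le_one]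
  intro a ha b hb
  exact he ((mem_filter.1 ha).2.trans (mem_filter.1 hb).2.symm)

omit [DecidableEq α] in
theorem T_split_left (A C : Finset α) (s : ℕ) :
    T k A C = T k (A.filter (fun x => e x < s)) C + T k (A.filter (fun x => e x = s)) C +
      T k (A.filter (fun x => s < e x)) C := by
  unfold T
  rw [← sum_filter_add_sum_filter_not A (fun x => e x < s)]
  rw [← sum_filter_add_sum_filter_not (A.filter (fun x => ¬ e x < s)) (fun x => e x = s)]
  rw [filter_filter, filter_filter, add_assoc]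
  have h1 : A.filter (fun x => ¬ e x < s ∧ e x = s) = A.filter (fun x => e x = s) :=
    filter_congr fun x _ => by omega
  have h2 : A.filter (fun x => ¬ e x < s ∧ ¬ e x = s) = A.filter (fun x => s < e x) :=
    filter_congr fun x _ => by omega
  rw [h1, h2]

omit [DecidableEq α] in
theorem T_split_right (A C : Finset α) (s : ℕ) :
    T k A C = T k A (C.filter (fun x => e x < s)) + T k A (C.filter (fun x => e x = s)) +
      T k A (C.filter (fun x => s < e x)) := by
  have hswap : ∀ X : Finset α, T k A X = T (fun x y => k y x) X A := by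
    intro X
    unfold T
    rw [sum_comm]
  rw [hswap, hswap, hswap, hswap]
  exact T_split_left _ _ _

theorem two_sets_aux (he : Function.Injective e) (hk : ∀ x y, ‖k x y‖ ≤ 1) (z : ℂ) (hz : ‖z‖ = 1)
    (hs : ∀ x y, k y x = z * k x y) (w u : ℝ) (hu : 0 ≤ u)
    (H : ∀ X : Finset α, ‖O e k X‖ ≤ u * (X.card : ℝ) ^ 2 + w) (n : ℕ) :
    ∀ (j : ℕ) (A C : Finset α), A.card + C.card ≤ 2 ^ j * n →
      ‖T k A C‖ ≤ (2 ^ j * n : ℝ) * (n + j) + 6 * w * (2 ^ j - 1) +
        4 * u * (2 ^ j * n : ℝ) ^ 2 := by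
  intro j
  induction j with
  | zero =>
    intro A C hAC
    have h1 : (A.card : ℝ) + C.card ≤ n := by
      have : A.card + C.card ≤ n := by simpa using hAC
      exact_mod_cast this
    have hA : (0 : ℝ) ≤ A.card := Nat.cast_nonneg _
    have hC : (0 : ℝ) ≤ C.card := Nat.cast_nonneg _
    have h2 := T_trivial hk A C
    have h3 : (A.card : ℝ) * C.card ≤ n * n := by
      refine mul_le_mul (by linarith) (by linarith) hC (by linarith)
    have h4 : 0 ≤ 4 * u * (n : ℝ) ^ 2 := by positivity
    simp only [pow_zero, one_mul, Nat.cast_zero, add_zero, sub_self, mul_zero]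
    linarith
  | succ j ih =>
    intro A C hAC
    have hAC' : A.card + C.card ≤ 2 * (2 ^ j * n) := by
      rw [pow_succ] at hAC
      linarith
    obtain ⟨s, hs1, hs2⟩ := cut (e := e) A C (2 ^ j * n) hAC'
    set A1 := A.filter (fun x => e x < s) with hA1
    set A2 := A.filter (fun x => e x = s) with hA2
    set A3 := A.filter (fun x => s < e x) with hA3
    set C1 := C.filter (fun x => e x < s) with hC1
    set C2 := C.filter (fun x => e x = s) with hC2
    set C3 := C.filter (fun x => s < e x) with hC3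
    have e1 : T k A C = T k A1 C1 + T k A3 C3 + (T k A1 C3 + T k A3 C1) +
        (T k A2 C + (T k A1 C2 + T k A3 C2)) := by
      rw [T_split_left (e := e) A C s, T_split_right (e := e) A1 C s, T_split_right (e := e) A3 C s]
      ring
    have b1 := ih A1 C1 hs1
    have b3 := ih A3 C3 hs2
    have s13 := T_sep w u hu H A1 C3 fun a ha c hc =>
      lt_trans (mem_filter.1 ha).2 (mem_filter.1 hc).2
    have s31 : ‖T k A3 C1‖ ≤ 3 * w + 2 * u * ((C1.card : ℝ) + A3.card) ^ 2 := by
      rw [T_symm z hz hs]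
      exact T_sep w u hu H C1 A3 fun c hc a ha =>
        lt_trans (mem_filter.1 hc).2 (mem_filter.1 ha).2
    have c2 : (A2.card : ℝ) ≤ 1 := by exact_mod_cast card_level he A s
    have c2' : (C2.card : ℝ) ≤ 1 := by exact_mod_cast card_level he C s
    have cA : (A1.card : ℝ) + A3.card ≤ A.card := by
      have h1 : A1.card + A3.card ≤ A.card := by
        rw [← card_union_of_disjoint]
        · exact card_le_card (union_subset (filter_subset _ _) (filter_subset _ _))
        · rw [disjoint_left]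
          intro x h1 h2
          have := (mem_filter.1 h1).2
          have := (mem_filter.1 h2).2
          omega
      exact_mod_cast h1
    have cC : (C1.card : ℝ) + C3.card ≤ C.card := by
      have h1 : C1.card + C3.card ≤ C.card := by
        rw [← card_union_of_disjoint]
        · exact card_le_card (union_subset (filter_subset _ _) (filter_subset _ _))
        · rw [disjoint_left]
          intro x h1 h2
          have := (mem_filter.1 h1).2
          have := (mem_filter.1 h2).2
          omega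
      exact_mod_cast h1
    have t2 : ‖T k A2 C‖ ≤ C.card := by
      refine (T_trivial hk A2 C).trans ?_
      calc (A2.card : ℝ) * C.card ≤ 1 * C.card :=
            mul_le_mul_of_nonneg_right c2 (Nat.cast_nonneg _)
        _ = _ := one_mul _
    have t12 : ‖T k A1 C2‖ ≤ A1.card := by
      refine (T_trivial hk A1 C2).trans ?_
      calc (A1.card : ℝ) * C2.card ≤ A1.card * 1 :=
            mul_le_mul_of_nonneg_left c2' (Nat.cast_nonneg _)
        _ = _ := mul_one _
    have t32 : ‖T k A3 C2‖ ≤ A3.card := by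
      refine (T_trivial hk A3 C2).trans ?_
      calc (A3.card : ℝ) * C2.card ≤ A3.card * 1 :=
            mul_le_mul_of_nonneg_left c2' (Nat.cast_nonneg _)
        _ = _ := mul_one _
    have hnorm : ‖T k A C‖ ≤ ‖T k A1 C1‖ + ‖T k A3 C3‖ + (‖T k A1 C3‖ + ‖T k A3 C1‖) +
        (‖T k A2 C‖ + (‖T k A1 C2‖ + ‖T k A3 C2‖)) := by
      rw [e1]
      refine (norm_add_le _ _).trans (add_le_add ((norm_add_le _ _).trans
        (add_le_add (norm_add_le _ _) (norm_add_le _ _))) ((norm_add_le _ _).trans
        (add_le_add le_rfl (norm_add_le _ _))))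
    have hG : (A.card : ℝ) + C.card ≤ 2 * (2 ^ j * n) := by exact_mod_cast hAC'
    set G : ℝ := 2 ^ j * n with hGdef
    have p1 : (0 : ℝ) ≤ A1.card := Nat.cast_nonneg _
    have p3 : (0 : ℝ) ≤ A3.card := Nat.cast_nonneg _
    have q1 : (0 : ℝ) ≤ C1.card := Nat.cast_nonneg _
    have q3 : (0 : ℝ) ≤ C3.card := Nat.cast_nonneg _
    have hsq : ((A1.card : ℝ) + C3.card) ^ 2 + ((C1.card : ℝ) + A3.card) ^ 2 ≤ (2 * G) ^ 2 := by
      have h1 : ((A1.card : ℝ) + C3.card) + ((C1.card : ℝ) + A3.card) ≤ 2 * G := by linarith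
      have h2 : 0 ≤ ((A1.card : ℝ) + C3.card) * ((C1.card : ℝ) + A3.card) :=
        mul_nonneg (add_nonneg p1 q3) (add_nonneg q1 p3)
      nlinarith
    have hsq' := mul_le_mul_of_nonneg_left hsq (show 0 ≤ 2 * u by linarith)
    have e2 : ((2 : ℝ) ^ (j + 1) * n) = 2 * G := by rw [hGdef, pow_succ]; ring
    have e3 : (2 : ℝ) ^ (j + 1) = 2 * 2 ^ j := by rw [pow_succ]; ring
    rw [e2, e3]
    push_cast
    linarith

/-- **Ordered sums over one set control the sums over two sets.** -/
theorem two_sets (he : Function.Injective e) (hk : ∀ x y, ‖k x y‖ ≤ 1) (z : ℂ) (hz : ‖z‖ = 1)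
    (hs : ∀ x y, k y x = z * k x y) (w u : ℝ) (hu : 0 ≤ u) (hw : 0 ≤ w)
    (H : ∀ X : Finset α, ‖O e k X‖ ≤ u * (X.card : ℝ) ^ 2 + w) (n j : ℕ) (A C : Finset α)
    (hAC : A.card + C.card ≤ 2 ^ j * n) :
    ‖T k A C‖ ≤ (2 ^ j * n : ℝ) * (n + j) + 6 * w * 2 ^ j + 4 * u * (2 ^ j * n : ℝ) ^ 2 := by
  have h := two_sets_aux he hk z hz hs w u hu H n j A C hAC
  linarith

/-- a threshold which cuts one set into halves -/
theorem cut_one (he : Function.Injective e) (A : Finset α) (N : ℕ) (hN : A.card ≤ 2 * N) :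
    ∃ s : ℕ, (A.filter (fun x => e x < s)).card ≤ N ∧ (A.filter (fun x => ¬ e x < s)).card ≤ N := by
  classical
  set g : ℕ → ℕ := fun s => (A.filter (fun x => e x < s)).card with hg
  have hstep : ∀ s, g (s + 1) ≤ g s + 1 := by
    intro s
    have h1 : A.filter (fun x => e x < s + 1) ⊆
        A.filter (fun x => e x < s) ∪ A.filter (fun x => e x = s) := by
      intro x hx
      rw [mem_filter] at hx
      rw [mem_union, mem_filter, mem_filter]
      rcases Nat.lt_succ_iff_lt_or_eq.1 hx.2 with h | h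
      · exact Or.inl ⟨hx.1, h⟩
      · exact Or.inr ⟨hx.1, h⟩
    have h2 := card_level he A s
    have h3 := (card_le_card h1).trans (card_union_le _ _)
    simp only [hg]
    omega
  have hcomp : ∀ s, g s + (A.filter (fun x => ¬ e x < s)).card = A.card := fun s =>
    card_filter_add_card_filter_not (s := A) (fun x => e x < s)
  have hex : ∃ s, A.card - N ≤ g s := by
    refine ⟨A.sup e + 1, ?_⟩
    have h1 : A.filter (fun x => e x < A.sup e + 1) = A :=
      filter_true_of_mem fun x hx => Nat.lt_succ_of_le (le_sup (f := e) hx)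
    simp only [hg]
    rw [h1]
    exact Nat.sub_le _ _
  set s := Nat.find hex with hs
  have h1 : A.card - N ≤ g s := Nat.find_spec hex
  have h2 := hcomp s
  refine ⟨s, ?_, by omega⟩
  rcases Nat.eq_zero_or_pos s with h0 | h0
  · rw [h0]; simp
  · have h3 := Nat.find_min hex (show s - 1 < Nat.find hex by omega)
    have h4 := hstep (s - 1)
    rw [show s - 1 + 1 = s by omega] at h4
    change g s ≤ N
    omega

/-- **Sums over two sets control the ordered sums over one set.** -/
theorem ordered_from_two (he : Function.Injective e) (S₁ S₂ : ℝ) (h1 : 0 ≤ S₁) (h2 : 0 ≤ S₂)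
    (H : ∀ A C : Finset α, ‖T k A C‖ ≤ S₁ * (A.card * C.card) + S₂ * max (A.card : ℝ) C.card) :
    ∀ (j : ℕ) (A : Finset α), A.card ≤ 2 ^ j →
      ‖O e k A‖ ≤ S₁ * 4 ^ j / 2 + S₂ * (j * 2 ^ j) / 2 := by
  intro j
  induction j with
  | zero =>
    intro A hA
    have h0 : O e k A = 0 := by
      unfold O
      refine sum_eq_zero fun a ha => ?_
      rw [filter_false_of_mem, sum_empty]
      intro b hb
      have : a = b := card_le_one.1 (by simpa using hA) a ha b hb
      rw [this]
      exact lt_irrefl _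
    rw [h0, norm_zero]
    positivity
  | succ j ih =>
    intro A hA
    obtain ⟨s, hs1, hs2⟩ := cut_one he A (2 ^ j) (by rw [pow_succ] at hA; linarith)
    set A1 := A.filter (fun x => e x < s) with hA1
    set A2 := A.filter (fun x => ¬ e x < s) with hA2
    have hsep : ∀ a ∈ A1, ∀ c ∈ A2, e a < e c := fun a ha c hc =>
      lt_of_lt_of_le (mem_filter.1 ha).2 (not_lt.1 (mem_filter.1 hc).2)
    have hU : A1 ∪ A2 = A := filter_union_filter_not_eq _ A
    have h3 := O_union (k := k) A1 A2 hsep
    rw [hU] at h3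
    have b1 := ih A1 hs1
    have b2 := ih A2 hs2
    have b3 := H A1 A2
    have c1 : (A1.card : ℝ) ≤ 2 ^ j := by exact_mod_cast hs1
    have c2 : (A2.card : ℝ) ≤ 2 ^ j := by exact_mod_cast hs2
    have c3 : (A1.card : ℝ) * A2.card ≤ 2 ^ j * 2 ^ j :=
      mul_le_mul c1 c2 (Nat.cast_nonneg _) (by positivity)
    have c4 : max (A1.card : ℝ) A2.card ≤ 2 ^ j := max_le c1 c2
    have e4 : (4 : ℝ) ^ j = 2 ^ j * 2 ^ j := by rw [← mul_pow]; norm_num
    have hnorm : ‖O e k A‖ ≤ ‖O e k A1‖ + ‖O e k A2‖ + ‖T k A1 A2‖ := by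
      rw [h3]
      exact (norm_add_le _ _).trans (add_le_add (norm_add_le _ _) le_rfl)
    have b4 : ‖T k A1 A2‖ ≤ S₁ * 4 ^ j + S₂ * 2 ^ j := by
      refine b3.trans (add_le_add ?_ ?_)
      · rw [e4]; exact mul_le_mul_of_nonneg_left c3 h1
      · exact mul_le_mul_of_nonneg_left c4 h2
    have e5 : (4 : ℝ) ^ (j + 1) = 4 * 4 ^ j := by rw [pow_succ]; ring
    have e6 : (2 : ℝ) ^ (j + 1) = 2 * 2 ^ j := by rw [pow_succ]; ring
    rw [e5, e6]
    push_cast
    nlinarith

/-- the same for every set, with the binary logarithm -/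
theorem ordered_from_two' (he : Function.Injective e) (S₁ S₂ : ℝ) (h1 : 0 ≤ S₁) (h2 : 0 ≤ S₂)
    (H : ∀ A C : Finset α, ‖T k A C‖ ≤ S₁ * (A.card * C.card) + S₂ * max (A.card : ℝ) C.card)
    (A : Finset α) :
    ‖O e k A‖ ≤ 2 * S₁ * (A.card : ℝ) ^ 2 + S₂ * (Nat.clog 2 A.card * A.card) := by
  rcases A.eq_empty_or_nonempty with rfl | hA
  · simp [O]
  have hA1 : 1 ≤ A.card := hA.card_pos
  have hle : A.card ≤ 2 ^ Nat.clog 2 A.card := Nat.le_pow_clog (by norm_num) _
  have h := ordered_from_two (k := k) he S₁ S₂ h1 h2 H (Nat.clog 2 A.card) A hle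
  have hlt : (2 : ℝ) ^ Nat.clog 2 A.card ≤ 2 * A.card := by
    rcases hA1.eq_or_lt with h3 | h3
    · rw [← h3]; simp
    · have h4 := Nat.pow_pred_clog_lt_self (b := 2) (by norm_num) h3
      have h5 : 0 < Nat.clog 2 A.card := Nat.clog_pos (by norm_num) h3
      have h6 : 2 ^ Nat.clog 2 A.card ≤ 2 * A.card := by
        calc 2 ^ Nat.clog 2 A.card = 2 * 2 ^ (Nat.clog 2 A.card).pred := by
              rw [← pow_succ']
              congr 1
              exact (Nat.succ_pred_eq_of_pos h5).symm
          _ ≤ _ := Nat.mul_le_mul_left 2 h4.le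
      exact_mod_cast h6
  have hc0 : (0 : ℝ) ≤ Nat.clog 2 A.card := Nat.cast_nonneg _
  have e4 : (4 : ℝ) ^ Nat.clog 2 A.card = 2 ^ Nat.clog 2 A.card * 2 ^ Nat.clog 2 A.card := by
    rw [← mul_pow]; norm_num
  have h7 : (4 : ℝ) ^ Nat.clog 2 A.card ≤ (2 * A.card) * (2 * A.card) := by
    rw [e4]
    exact mul_le_mul hlt hlt (by positivity) (by positivity)
  have h8 := mul_le_mul_of_nonneg_left h7 h1
  have h9 := mul_le_mul_of_nonneg_left hlt (mul_nonneg h2 hc0)
  calc _ ≤ _ := h
    _ ≤ _ := by nlinarith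

end Pool.Agent.V7H48.OD
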